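import Pool.Agent.GenMed.Hard
import Pool.Agent.GenMed.Member

/-!
# Recognising the `j`-th generalised median stable matching is in NP iff PP = NP
-/

namespace Pool.Agent.Results.MP_89948a_lc.InNPIffPPEqNP

open GenMed

/-- The problem to decide whether `M = α_j` belongs to NP if and only if PP = NP: this holds for
the set of all (encodings of) inputs with answer yes, and also if nothing is required of the
algorithm outside the legal inputs. -/
theorem result :
    (GMSM ∈ NPC.NP ↔ PP = NPC.NP) ∧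
    ((∃ L ∈ NPC.NP, ∀ d : Data, Legal d → (encData d ∈ L ↔ Yes d)) ↔
      PP = NPC.NP) := by
  have h1 : GMSM ∈ NPC.NP → ∃ L ∈ NPC.NP, ∀ d : Data, Legal d →
      (encData d ∈ L ↔ Yes d) :=
    fun h => ⟨GMSM, h, fun d _ => by
      rw [encData_eq, gmsm_eq]
      exact FP.enc_mem_lang Yes d⟩
  have h2 : (∃ L ∈ NPC.NP, ∀ d : Data, Legal d → (encData d ∈ L ↔ Yes d)) →
      PP = NPC.NP := fun h => Set.Subset.antisymm (pp_subset_np h) np_subset_pp
  have h3 : PP = NPC.NP → GMSM ∈ NPC.NP := fun h => gmsm_mem_np h.subset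
  exact ⟨⟨fun h => h2 (h1 h), h3⟩, ⟨h2, fun h => h1 (h3 h)⟩⟩

end Pool.Agent.Results.MP_89948a_lc.InNPIffPPEqNP
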